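import Mathlib
import Pool.Agent.J4H86.PK.Div

set_option autoImplicit false

/-- For every `0 < α < 1` there is a countable closed subset `E` of the unit circle which is a peak
set for the Lipschitz class `A_α` (the peaking function being `α`-Hölder continuous on the whole
closed disc) while `dist(·, E)^(-α)` is not integrable over the circle. -/
theorem Pool.Agent.Results.MP_84bbc2_an.CountablePeakSet.result :
    ∀ α : ℝ, 0 < α → α < 1 → ∃ E : Set ℂ,
      E ⊆ Metric.sphere 0 1 ∧ IsClosed E ∧ E.Countable ∧ E.Nonempty ∧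
      (∃ f : ℂ → ℂ, DifferentiableOn ℂ f (Metric.ball 0 1) ∧
        ContinuousOn f (Metric.closedBall 0 1) ∧
        (∃ L : ℝ, ∀ z ∈ Metric.closedBall (0 : ℂ) 1, ∀ w ∈ Metric.closedBall (0 : ℂ) 1,
          ‖f z - f w‖ ≤ L * ‖z - w‖ ^ α) ∧
        (∀ z ∈ E, f z = 1) ∧
        (∀ z ∈ Metric.closedBall (0 : ℂ) 1, z ∉ E → ‖f z‖ < 1)) ∧
      (∫⁻ θ in Set.Ioc (0 : ℝ) (2 * Real.pi),
        (ENNReal.ofReal (Metric.infDist (Complex.exp (Complex.I * (θ : ℂ))) E)) ^ (-α) = ⊤) ∧
      ¬ MeasureTheory.IntegrableOn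
        (fun θ : ℝ => Metric.infDist (Complex.exp (Complex.I * (θ : ℂ))) E ^ (-α))
        (Set.Ioc (0 : ℝ) (2 * Real.pi)) := by
  intro α h0 h1
  have hD := Pool.Agent.J4H86.PK.data α h0 h1
  obtain ⟨j, hj⟩ := (Pool.Agent.J4H86.PK.ll_small α h0 h1).exists
  have hN : 0 < Pool.Agent.J4H86.PK.NN α j := by
    have hl := Pool.Agent.J4H86.PK.ll_pos α j
    apply Nat.floor_pos.2
    rw [le_div_iff₀ (by positivity)]
    linarith
  have : Nonempty (Σ j : ℕ, Fin (Pool.Agent.J4H86.PK.NN α j)) := ⟨⟨j, ⟨0, hN⟩⟩⟩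
  obtain ⟨f, hf1, ⟨L, hf2⟩, hf3, hf4⟩ := hD.exists_peak
  have hcont : ContinuousOn f (Metric.closedBall 0 1) := by
    have hL : ∀ z w, ‖z‖ ≤ 1 → ‖w‖ ≤ 1 → ‖f z - f w‖ ≤ |L| * ‖z - w‖ ^ α := by
      intro z w hz hw
      refine (hf2 z w hz hw).trans ?_
      exact mul_le_mul_of_nonneg_right (le_abs_self L) (by positivity)
    intro z hz
    rw [mem_closedBall_zero_iff] at hz
    rw [ContinuousWithinAt, tendsto_iff_norm_sub_tendsto_zero]
    have h2 : Filter.Tendsto (fun w : ℂ => |L| * ‖w - z‖ ^ α)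
        (nhdsWithin z (Metric.closedBall 0 1)) (nhds 0) := by
      have h3 : Continuous (fun w : ℂ => |L| * ‖w - z‖ ^ α) := by
        apply Continuous.mul continuous_const
        apply Continuous.rpow_const
        · fun_prop
        · intro w
          exact Or.inr h0.le
      have h4 := h3.tendsto z
      rw [sub_self, norm_zero, Real.zero_rpow h0.ne', mul_zero] at h4
      exact h4.mono_left nhdsWithin_le_nhds
    apply squeeze_zero' _ _ h2
    · exact Filter.Eventually.of_forall (fun w => norm_nonneg _)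
    · filter_upwards [self_mem_nhdsWithin] with w hw
      rw [mem_closedBall_zero_iff] at hw
      exact hL w z hw hz
  have hsub : Pool.Agent.J4H86.PK.EE α ⊆ Metric.sphere 0 1 := by
    rintro z (rfl | ⟨s, rfl⟩)
    · simp
    · rw [mem_sphere_zero_iff_norm]
      exact hD.norm1 s
  have hclosed : IsClosed (Pool.Agent.J4H86.PK.EE α) := by
    have e : Pool.Agent.J4H86.PK.EE α = Metric.closedBall 0 1 ∩ f ⁻¹' {1} := by
      ext z
      constructor
      · intro hz
        exact ⟨Metric.sphere_subset_closedBall (hsub hz), hf3 z hz⟩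
      · rintro ⟨hz1, hz2⟩
        rw [mem_closedBall_zero_iff] at hz1
        by_contra hcon
        have h2 := hf4 z hz1 hcon
        have h3 : f z = 1 := hz2
        rw [h3, norm_one] at h2
        exact lt_irrefl _ h2
    rw [e]
    exact hcont.preimage_isClosed_of_isClosed Metric.isClosed_closedBall isClosed_singleton
  refine ⟨Pool.Agent.J4H86.PK.EE α, hsub, hclosed, Pool.Agent.J4H86.PK.EE_countable α,
    ⟨1, Or.inl rfl⟩, ⟨f, hf1, hcont, ⟨L, ?_⟩, fun z hz => hf3 z hz, ?_⟩,
    Pool.Agent.J4H86.PK.diverges α h0 h1, Pool.Agent.J4H86.PK.not_integrable α h0 h1 hclosed⟩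
  · intro z hz w hw
    rw [mem_closedBall_zero_iff] at hz hw
    exact hf2 z w hz hw
  · intro z hz hE
    rw [mem_closedBall_zero_iff] at hz
    exact hf4 z hz hE
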